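import Mathlib

/-!
# Completion of a nilpotent element to an `sl2`-triple in an associative algebra

`E, F, H` are endomorphisms of a rational vector space. Only `[H, E] = 2 E` and `[E, F] = H` are
assumed in the first part (Morozov's lemma for a nilpotent `E`).
-/

open Polynomial

namespace LC32

section Mod

variable {M : Type*} [AddCommGroup M] [Module ℚ M] {E F H : Module.End ℚ M}

theorem aeval_mem {S : Submodule ℚ M} (hS : ∀ x ∈ S, H x ∈ S) (p : ℚ[X]) {x : M} (hx : x ∈ S) :
    aeval H p x ∈ S := by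
  have hpow : ∀ k : ℕ, (H ^ k) x ∈ S := by
    intro k
    induction k with
    | zero => simpa using hx
    | succ k ih =>
      rw [pow_succ', Module.End.mul_apply]
      exact hS _ ih
  induction p using Polynomial.induction_on' with
  | add p q hp hq =>
    rw [map_add, LinearMap.add_apply]
    exact S.add_mem hp hq
  | monomial k a =>
    rw [aeval_monomial, Module.End.mul_apply, Module.algebraMap_end_apply]
    exact S.smul_mem _ (hpow k)

theorem aeval_eig {μ : ℚ} {w : M} (hw : H w = μ • w) (p : ℚ[X]) :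
    aeval H p w = p.eval μ • w := by
  have hpow : ∀ k : ℕ, (H ^ k) w = μ ^ k • w := by
    intro k
    induction k with
    | zero => simp
    | succ k ih =>
      rw [pow_succ', Module.End.mul_apply, ih, map_smul, hw, smul_smul, pow_succ]
  induction p using Polynomial.induction_on' with
  | add p q hp hq => rw [map_add, LinearMap.add_apply, hp, hq, eval_add, add_smul]
  | monomial k a =>
    rw [aeval_monomial, Module.End.mul_apply, Module.algebraMap_end_apply, hpow, smul_smul,
      eval_monomial]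

theorem HE (h1 : H * E - E * H = (2 : ℚ) • E) (x : M) : H (E x) = E (H x) + (2 : ℚ) • E x := by
  have h := congrArg (fun f => f x) h1
  simp only [LinearMap.sub_apply, Module.End.mul_apply, LinearMap.smul_apply] at h
  rw [← h]
  abel

theorem EF (h2 : E * F - F * E = H) (x : M) : E (F x) = F (E x) + H x := by
  have h := congrArg (fun f => f x) h2
  simp only [LinearMap.sub_apply, Module.End.mul_apply] at h
  rw [← h]
  abel

theorem HE_pow (h1 : H * E - E * H = (2 : ℚ) • E) (k : ℕ) (x : M) :
    H ((E ^ k) x) = (E ^ k) (H x) + (2 * k : ℚ) • (E ^ k) x := by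
  induction k generalizing x with
  | zero => simp
  | succ k ih =>
    rw [pow_succ, Module.End.mul_apply, ih, HE h1, map_add, map_smul, Module.End.mul_apply]
    push_cast
    module

theorem E_pow_F (h1 : H * E - E * H = (2 : ℚ) • E) (h2 : E * F - F * E = H) (i : ℕ) (x : M) :
    (E ^ (i + 1)) (F x) = F ((E ^ (i + 1)) x) +
      ((i : ℚ) + 1) • (H ((E ^ i) x) - (i : ℚ) • (E ^ i) x) := by
  induction i generalizing x with
  | zero => simp [EF h2]
  | succ i ih =>
    have e1 : (E ^ (i + 1 + 1)) (F x) = E ((E ^ (i + 1)) (F x)) := by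
      rw [pow_succ' E (i + 1), Module.End.mul_apply]
    have e2 : (E ^ (i + 1)) x = E ((E ^ i) x) := by rw [pow_succ', Module.End.mul_apply]
    have e3 : (E ^ (i + 1 + 1)) x = E (E ((E ^ i) x)) := by
      rw [pow_succ' E (i + 1), Module.End.mul_apply, e2]
    rw [e1, ih, map_add, EF h2, map_smul, map_sub, map_smul, e2, e3, HE h1]
    push_cast
    module

/-- `(H - j) ⋯ (H - j - i + 1)` maps `ker E ∩ im E^j` to `im E^(j + i)` -/
theorem prod_range (h1 : H * E - E * H = (2 : ℚ) • E) (h2 : E * F - F * E = H) {j : ℕ} {z x : M}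
    (hz : E z = 0) (hx : z = (E ^ j) x) (i : ℕ) :
    ∃ x', aeval H (∏ l ∈ Finset.range i, (X - C (((j + l : ℕ) : ℚ)))) z = (E ^ (j + i)) x' ∧
      E (aeval H (∏ l ∈ Finset.range i, (X - C (((j + l : ℕ) : ℚ)))) z) = 0 := by
  have hker : ∀ p : ℚ[X], E (aeval H p z) = 0 := by
    intro p
    have hS : ∀ y ∈ LinearMap.ker E, H y ∈ LinearMap.ker E := by
      intro y hy
      rw [LinearMap.mem_ker] at hy ⊢
      have := HE h1 y
      rw [hy, map_zero, smul_zero, add_zero] at this
      exact this.symm
    exact LinearMap.mem_ker.1 (aeval_mem hS p (LinearMap.mem_ker.2 hz))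
  induction i with
  | zero => exact ⟨x, by simpa using hx, hker _⟩
  | succ i ih =>
    obtain ⟨x', hx', h0⟩ := ih
    refine ⟨((((j + i : ℕ) : ℚ) + 1)⁻¹) • F x', ?_, hker _⟩
    have h3 := E_pow_F h1 h2 (j + i) x'
    have h4 : (E ^ (j + i + 1)) x' = 0 := by
      rw [pow_succ', Module.End.mul_apply, ← hx', h0]
    rw [h4, map_zero, zero_add] at h3
    have hne : (((j + i : ℕ) : ℚ) + 1) ≠ 0 := by positivity
    rw [show j + (i + 1) = j + i + 1 from rfl, map_smul, h3, smul_smul, inv_mul_cancel₀ hne,
      one_smul, Finset.prod_range_succ, mul_comm, map_mul, Module.End.mul_apply, hx', map_sub,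
      aeval_X, aeval_C, LinearMap.sub_apply, Module.algebraMap_end_apply]

/-- Lagrange decomposition with respect to `H` -/
theorem lagr {κ : Type*} [DecidableEq κ] {s : Finset κ} {v : κ → ℚ} (hv : Set.InjOn v s) {z : M}
    (hz : aeval H (∏ l ∈ s, (X - C (v l))) z = 0) :
    z = ∑ l ∈ s, aeval H (Lagrange.basis s v l) z ∧
      ∀ l ∈ s, H (aeval H (Lagrange.basis s v l) z) = v l • aeval H (Lagrange.basis s v l) z := by
  constructor
  · rcases s.eq_empty_or_nonempty with rfl | hs
    · simpa using hz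
    · have h1 := Lagrange.sum_basis hv hs
      have h2 := congrArg (fun p => aeval H p z) h1
      simp only [map_sum, map_one, LinearMap.sum_apply, Module.End.one_apply] at h2
      exact h2.symm
  · intro l hl
    have h1 : (X - C (v l)) * Lagrange.basis s v l =
        C (Lagrange.nodalWeight s v l) * ∏ l ∈ s, (X - C (v l)) := by
      rw [Lagrange.basis_eq_prod_sub_inv_mul_nodal_div hl, ← Lagrange.nodal_erase_eq_nodal_div hl,
        mul_left_comm, ← Lagrange.nodal_eq_mul_nodal_erase hl, Lagrange.nodal_eq]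
    have h2 := congrArg (fun p => aeval H p z) h1
    simp only [map_mul, map_sub, aeval_X, aeval_C, Module.End.mul_apply, LinearMap.sub_apply,
      Module.algebraMap_end_apply] at h2
    rw [hz, smul_zero, sub_eq_zero] at h2
    exact h2

/-- on `ker E` the eigenvalues of `H` are `0, 1, 2, …` -/
theorem eval_ne {N : ℕ} : (∏ l ∈ Finset.range N, (X - C (((0 + l : ℕ) : ℚ)))).eval (-2) ≠ 0 := by
  rw [eval_prod, Finset.prod_ne_zero_iff]
  intro l _
  rw [eval_sub, eval_X, eval_C]
  have : (0 : ℚ) ≤ ((0 + l : ℕ) : ℚ) := Nat.cast_nonneg _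
  linarith

/-- Morozov's lemma, for vectors: a solution of `E x = h`, where `H h = 0` and `E h = -2 E`… is
given by a completion -/
theorem morozov (h1 : H * E - E * H = (2 : ℚ) • E) (h2 : E * F - F * E = H) {N : ℕ}
    (hN : E ^ N = 0) {x h : M} (hx : E x = h) (hh : H h = 0) {S : Submodule ℚ M} (hxS : x ∈ S)
    (hS : ∀ y ∈ S, H y ∈ S) :
    ∃ y, E y = h ∧ H y = -((2 : ℚ) • y) ∧ y ∈ S := by
  set z : M := H x + (2 : ℚ) • x with hz
  have hzS : z ∈ S := S.add_mem (hS _ hxS) (S.smul_mem _ hxS)
  have hEz : E z = 0 := by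
    have := HE h1 x
    rw [hx, hh] at this
    rw [hz, map_add, map_smul, hx, ← this]
  set P : ℚ[X] := ∏ l ∈ Finset.range N, (X - C (((0 + l : ℕ) : ℚ))) with hP
  have hPz : aeval H P z = 0 := by
    obtain ⟨x', hx', -⟩ := prod_range h1 h2 (j := 0) (x := z) hEz (by simp) N
    rw [hP, hx', zero_add, hN, LinearMap.zero_apply]
  have hPe : P.eval (-2) ≠ 0 := eval_ne
  obtain ⟨q, hq⟩ := X_sub_C_dvd_sub_C_eval (a := (-2 : ℚ)) (p := P)
  have h3 := congrArg (fun p => aeval H p z) hq
  simp only [map_mul, map_sub, aeval_X, aeval_C, Module.End.mul_apply, LinearMap.sub_apply,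
    Module.algebraMap_end_apply, hPz] at h3
  have hker : E (aeval H q z) = 0 := by
    have hS : ∀ y ∈ LinearMap.ker E, H y ∈ LinearMap.ker E := by
      intro y hy
      rw [LinearMap.mem_ker] at hy ⊢
      have := HE h1 y
      rw [hy, map_zero, smul_zero, add_zero] at this
      exact this.symm
    exact LinearMap.mem_ker.1 (aeval_mem hS q (LinearMap.mem_ker.2 hEz))
  refine ⟨x + (P.eval (-2))⁻¹ • aeval H q z, ?_, ?_, ?_⟩
  · rw [map_add, map_smul, hker, smul_zero, add_zero, hx]
  · have h4 : H (aeval H q z) = -(P.eval (-2) • z) - (2 : ℚ) • aeval H q z := by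
      rw [zero_sub] at h3
      rw [h3]
      module
    rw [map_add, map_smul, h4, smul_sub, smul_neg, smul_smul, inv_mul_cancel₀ hPe, one_smul, hz]
    module
  · exact S.add_mem hxS (S.smul_mem _ (aeval_mem hS q hzS))

/-- uniqueness of the completion -/
theorem morozov_unique (h1 : H * E - E * H = (2 : ℚ) • E) (h2 : E * F - F * E = H) {N : ℕ}
    (hN : E ^ N = 0) {u : M} (hu : E u = 0) (hu' : H u = -((2 : ℚ) • u)) : u = 0 := by
  obtain ⟨x', hx', -⟩ := prod_range h1 h2 (j := 0) (x := u) hu (by simp) N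
  rw [zero_add, hN, LinearMap.zero_apply, aeval_eig (μ := -2) (by rw [hu']; module)] at hx'
  exact (smul_eq_zero.1 hx').resolve_left eval_ne

/-! ### representations of `sl2` with nilpotent `E` -/

/-- primitive vectors -/
theorem prim_HF (h3 : H * F - F * H = -((2 : ℚ) • F)) {l : ℚ} {y : M} (hy : H y = l • y) (i : ℕ) :
    H ((F ^ i) y) = (l - 2 * i) • (F ^ i) y := by
  induction i with
  | zero => simpa using hy
  | succ i ih =>
    have h := congrArg (fun f => f ((F ^ i) y)) h3
    simp only [LinearMap.sub_apply, Module.End.mul_apply, LinearMap.smul_apply,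
      LinearMap.neg_apply, ih, map_smul] at h
    rw [pow_succ', Module.End.mul_apply, sub_eq_iff_eq_add.1 h]
    push_cast
    module

theorem prim_EF (h2 : E * F - F * E = H) (h3 : H * F - F * H = -((2 : ℚ) • F)) {l : ℚ} {y : M}
    (hE : E y = 0) (hy : H y = l • y) (i : ℕ) :
    E ((F ^ (i + 1)) y) = (((i : ℚ) + 1) * (l - i)) • (F ^ i) y := by
  induction i with
  | zero => simp [EF h2, hE, hy]
  | succ i ih =>
    rw [pow_succ', Module.End.mul_apply, EF h2, ih, prim_HF h3 hy, map_smul,
      show F ((F ^ i) y) = (F ^ (i + 1)) y by rw [pow_succ', Module.End.mul_apply]]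
    push_cast
    module

theorem prim_EkF (h2 : E * F - F * E = H) (h3 : H * F - F * H = -((2 : ℚ) • F)) {l : ℚ} {y : M}
    (hE : E y = 0) (hy : H y = l • y) (m k : ℕ) :
    (E ^ k) ((F ^ (m + k)) y) =
      (∏ i ∈ Finset.range k, (((m + i : ℕ) : ℚ) + 1) * (l - ((m + i : ℕ) : ℚ))) • (F ^ m) y := by
  induction k with
  | zero => simp
  | succ k ih =>
    rw [pow_succ, Module.End.mul_apply, show m + (k + 1) = (m + k) + 1 from rfl,
      prim_EF h2 h3 hE hy, map_smul, ih, smul_smul, Finset.prod_range_succ, mul_comm]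

/-- a nilpotent `E` : everything is a sum of vectors `F^j y` with `y` primitive -/
theorem span_prim (h1 : H * E - E * H = (2 : ℚ) • E) (h2 : E * F - F * E = H)
    (h3 : H * F - F * H = -((2 : ℚ) • F)) {n : ℕ} (hn : E ^ n = 0) (v : M) :
    v ∈ Submodule.span ℚ {w : M | ∃ (l j : ℕ) (y : M), j ≤ l ∧ l < n ∧ E y = 0 ∧
      H y = (l : ℚ) • y ∧ w = (F ^ j) y} := by
  set S := Submodule.span ℚ {w : M | ∃ (l j : ℕ) (y : M), j ≤ l ∧ l < n ∧ E y = 0 ∧
      H y = (l : ℚ) • y ∧ w = (F ^ j) y} with hS
  have key : ∀ j ≤ n, ∀ v : M, (E ^ j) v = 0 → v ∈ S := by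
    intro j
    induction j with
    | zero =>
      intro _ v hv
      rw [pow_zero, Module.End.one_apply] at hv
      rw [hv]
      exact S.zero_mem
    | succ j ih =>
      intro hj v hv
      have hy0 : E ((E ^ j) v) = 0 := by rw [← hv, pow_succ', Module.End.mul_apply]
      obtain ⟨x', hx', -⟩ := prod_range h1 h2 (j := j) (x := v) hy0 rfl (n - j)
      rw [show j + (n - j) = n by omega, hn, LinearMap.zero_apply] at hx'
      have hinj : Set.InjOn (fun l : ℕ => (((j + l : ℕ) : ℚ))) (Finset.range (n - j)) := by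
        intro a _ b _ hab
        have h4 : j + a = j + b := Nat.cast_injective hab
        omega
      obtain ⟨hsum, heig⟩ := lagr hinj hx'
      set Y : ℕ → M := fun l => aeval H (Lagrange.basis (Finset.range (n - j))
        (fun l : ℕ => (((j + l : ℕ) : ℚ))) l) ((E ^ j) v) with hY
      have hYE : ∀ l, E (Y l) = 0 := by
        intro l
        have hS : ∀ y ∈ LinearMap.ker E, H y ∈ LinearMap.ker E := by
          intro y hy
          rw [LinearMap.mem_ker] at hy ⊢
          have := HE h1 y
          rw [hy, map_zero, smul_zero, add_zero] at this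
          exact this.symm
        exact LinearMap.mem_ker.1 (aeval_mem hS _ (LinearMap.mem_ker.2 hy0))
      set c : ℕ → ℚ := fun l => ∏ i ∈ Finset.range j, (((0 + i : ℕ) : ℚ) + 1) *
        (((j + l : ℕ) : ℚ) - ((0 + i : ℕ) : ℚ)) with hc
      have hc0 : ∀ l, c l ≠ 0 := by
        intro l
        rw [hc]
        refine Finset.prod_ne_zero_iff.2 fun i hi => ?_
        rw [Finset.mem_range] at hi
        refine mul_ne_zero (by positivity) ?_
        rw [sub_ne_zero]
        intro h4
        have h5 : j + l = 0 + i := Nat.cast_injective h4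
        omega
      have hFj : ∀ l ∈ Finset.range (n - j), (F ^ j) (Y l) ∈ S := by
        intro l hl
        rw [Finset.mem_range] at hl
        exact Submodule.subset_span ⟨j + l, j, Y l, by omega, by omega, hYE l,
          heig l (Finset.mem_range.2 hl), rfl⟩
      have hv' : v - ∑ l ∈ Finset.range (n - j), (c l)⁻¹ • (F ^ j) (Y l) ∈ S := by
        apply ih (by omega)
        rw [map_sub, map_sum, sub_eq_zero]
        refine hsum.trans (Finset.sum_congr rfl fun l hl => ?_)
        have h4 := prim_EkF h2 h3 (hYE l) (heig l hl) 0 j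
        rw [zero_add, pow_zero, Module.End.one_apply] at h4
        rw [map_smul, h4, smul_smul, inv_mul_cancel₀ (hc0 l), one_smul]
      have h6 := S.add_mem hv' (S.sum_mem fun l hl => S.smul_mem (c l)⁻¹ (hFj l hl))
      rwa [sub_add_cancel] at h6
  exact key n le_rfl v (by rw [hn, LinearMap.zero_apply])

/-- `H` is semisimple with integral eigenvalues -/
theorem H_prod (h1 : H * E - E * H = (2 : ℚ) • E) (h2 : E * F - F * E = H)
    (h3 : H * F - F * H = -((2 : ℚ) • F)) {n : ℕ} (hn : E ^ (n + 1) = 0) (v : M) :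
    aeval H (∏ i ∈ Finset.Icc (-(n : ℤ)) n, (X - C ((i : ℤ) : ℚ))) v = 0 := by
  have h4 := span_prim h1 h2 h3 hn v
  induction h4 using Submodule.span_induction with
  | mem w hw =>
    obtain ⟨l, j, y, hjl, hl, hEy, hHy, rfl⟩ := hw
    have h5 := prim_HF h3 hHy j
    rw [aeval_eig h5, eval_prod, Finset.prod_eq_zero (i := ((l : ℤ) - 2 * j)), zero_smul]
    · rw [Finset.mem_Icc]
      omega
    · rw [eval_sub, eval_X, eval_C]
      push_cast
      ring
  | zero => rw [map_zero]
  | add x y _ _ hx hy => rw [map_add, hx, hy, add_zero]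
  | smul a x _ hx => rw [map_smul, hx, smul_zero]

/-- hard Lefschetz: injectivity -/
theorem lef_inj (h1 : H * E - E * H = (2 : ℚ) • E) (h2 : E * F - F * E = H) {n : ℕ}
    (hn : E ^ n = 0) {k : ℕ} {v : M} (hv : H v = -((k : ℚ) • v)) (hk : (E ^ k) v = 0) : v = 0 := by
  by_contra hne
  have hex : ∃ j, (E ^ j) v = 0 := ⟨k, hk⟩
  classical
  set j := Nat.find hex with hj
  have hj1 : (E ^ j) v = 0 := Nat.find_spec hex
  have hj2 : j ≤ k := Nat.find_min' hex hk
  obtain ⟨i, hi⟩ : ∃ i, j = i + 1 := by
    refine Nat.exists_eq_succ_of_ne_zero fun h0 => hne ?_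
    rw [h0, pow_zero, Module.End.one_apply] at hj1
    exact hj1
  have hi1 : (E ^ i) v ≠ 0 := Nat.find_min hex (by omega)
  have hi2 : E ((E ^ i) v) = 0 := by
    rw [← Module.End.mul_apply, ← pow_succ', ← hi, hj1]
  have hin : i < n := by
    by_contra h4
    push Not at h4
    apply hi1
    rw [show i = n + (i - n) by omega, pow_add, hn, zero_mul, LinearMap.zero_apply]
  obtain ⟨x', hx', -⟩ := prod_range h1 h2 (j := i) (x := v) hi2 rfl (n - i)
  rw [show i + (n - i) = n by omega, hn, LinearMap.zero_apply] at hx'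
  have h5 : H ((E ^ i) v) = ((2 * i : ℚ) - k) • (E ^ i) v := by
    rw [HE_pow h1, hv, map_neg, map_smul]
    module
  rw [aeval_eig h5] at hx'
  have h6 := (smul_eq_zero.1 hx').resolve_right hi1
  rw [eval_prod, Finset.prod_eq_zero_iff] at h6
  obtain ⟨l, hl, hl'⟩ := h6
  rw [eval_sub, eval_X, eval_C, sub_sub, sub_eq_zero] at hl'
  have h7 : (2 * i : ℚ) = ((k + (i + l) : ℕ) : ℚ) := by
    rw [hl']
    push_cast
    ring
  have h8 : 2 * i = k + (i + l) := by exact_mod_cast h7
  omega

/-- hard Lefschetz: surjectivity, with an explicit polynomial in `E ^ k F ^ k` -/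
theorem lef_surj (h1 : H * E - E * H = (2 : ℚ) • E) (h2 : E * F - F * E = H)
    (h3 : H * F - F * H = -((2 : ℚ) • F)) {n : ℕ} (hn : E ^ (n + 1) = 0) {k : ℕ} {v : M}
    (hv : H v = (k : ℚ) • v) :
    ∃ q : ℚ[X], v = (E ^ k) ((F ^ k) (aeval (E ^ k * F ^ k) q v)) := by
  have hnodes : Set.InjOn (fun i : ℤ => (i : ℚ)) (Finset.Icc (-(n : ℤ)) n) :=
    fun a _ b _ hab => Int.cast_injective hab
  by_cases hkn : (k : ℤ) ∈ Finset.Icc (-(n : ℤ)) n
  · set p := Lagrange.basis (Finset.Icc (-(n : ℤ)) n) (fun i : ℤ => (i : ℚ)) k with hp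
    have hpk : p.eval (k : ℚ) = 1 := by
      have := Lagrange.eval_basis_self hnodes hkn
      simpa using this
    have hpi : ∀ i ∈ Finset.Icc (-(n : ℤ)) n, i ≠ k → p.eval (i : ℚ) = 0 := by
      intro i hi hik
      exact Lagrange.eval_basis_of_ne (Ne.symm hik) hi
    set c : ℕ → ℚ := fun j => ∏ i ∈ Finset.range k, (((j + i : ℕ) : ℚ) + 1) *
      (((k + 2 * j : ℕ) : ℚ) - ((j + i : ℕ) : ℚ)) with hc
    have hc0 : ∀ j, c j ≠ 0 := by
      intro j
      rw [hc]
      refine Finset.prod_ne_zero_iff.2 fun i hi => ?_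
      rw [Finset.mem_range] at hi
      refine mul_ne_zero (by positivity) ?_
      rw [sub_ne_zero]
      intro h6
      have h7 : k + 2 * j = j + i := Nat.cast_injective h6
      omega
    set P : ℚ[X] := ∏ j ∈ Finset.range (n + 1), (X - C (c j)) with hP
    have hP0 : P.eval 0 ≠ 0 := by
      rw [hP, eval_prod]
      refine Finset.prod_ne_zero_iff.2 fun j _ => ?_
      rw [eval_sub, eval_X, eval_C, zero_sub, neg_ne_zero]
      exact hc0 j
    have key : ∀ u : M, aeval (E ^ k * F ^ k) P (aeval H p u) = 0 := by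
      intro u
      have h4 := span_prim h1 h2 h3 hn u
      induction h4 using Submodule.span_induction with
      | mem w hw =>
        obtain ⟨l, j, y, hjl, hl, hEy, hHy, rfl⟩ := hw
        rw [aeval_eig (prim_HF h3 hHy j)]
        by_cases hik : (l : ℤ) - 2 * j = k
        · have hl2 : l = k + 2 * j := by omega
          have h5 : (E ^ k * F ^ k) ((F ^ j) y) = c j • (F ^ j) y := by
            have h5 := prim_EkF h2 h3 hEy hHy j k
            rw [Module.End.mul_apply, ← Module.End.mul_apply (F ^ k), ← pow_add, add_comm k j, h5,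
              hl2]
          rw [map_smul, aeval_eig h5, hP, eval_prod, Finset.prod_eq_zero (i := j), zero_smul,
            smul_zero]
          · rw [Finset.mem_range]
            omega
          · rw [eval_sub, eval_X, eval_C, sub_self]
        · have h5 := hpi ((l : ℤ) - 2 * j) (by rw [Finset.mem_Icc]; omega) hik
          push_cast at h5
          rw [h5, zero_smul, map_zero]
      | zero => rw [map_zero, map_zero]
      | add x y _ _ hx hy => rw [map_add, map_add, hx, hy, add_zero]
      | smul a x _ hx => rw [map_smul, map_smul, hx, smul_zero]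
    have h6 := key v
    rw [aeval_eig hv, hpk, one_smul] at h6
    obtain ⟨q, hq⟩ := X_sub_C_dvd_sub_C_eval (a := (0 : ℚ)) (p := P)
    have h3 := congrArg (fun p => aeval (E ^ k * F ^ k) p v) hq
    simp only [map_mul, map_sub, aeval_X, aeval_C, map_zero, sub_zero, Module.End.mul_apply,
      LinearMap.sub_apply, Module.algebraMap_end_apply, h6, zero_sub] at h3
    refine ⟨C (-(P.eval 0)⁻¹) * q, ?_⟩
    rw [map_mul, aeval_C, Module.End.mul_apply, Module.algebraMap_end_apply, map_smul, map_smul,
      ← h3, smul_neg, neg_smul, neg_neg, smul_smul, inv_mul_cancel₀ hP0, one_smul]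
  · refine ⟨0, ?_⟩
    have h4 := H_prod h1 h2 h3 hn v
    rw [aeval_eig hv] at h4
    have h5 := (smul_eq_zero.1 h4).resolve_left ?_
    · rw [h5, map_zero, map_zero, map_zero]
    · rw [eval_prod]
      refine Finset.prod_ne_zero_iff.2 fun i hi => ?_
      rw [eval_sub, eval_X, eval_C, sub_ne_zero]
      intro h6
      have h7 : (k : ℤ) = i := by exact_mod_cast h6
      rw [← h7] at hi
      exact hkn hi

end Mod

end LC32
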