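import Pool.Agent.LibLC32.Core
import Pool.Agent.LibSD51.Defs

/-!
# The linear criterion: from the equation to the decomposition
-/

open Polynomial

namespace SDCK

namespace Cycles

universe u v

variable {T : Cycles.{u, v}} {x : T.ι}

/-- a correspondence of codimension `c` on `V i × V j` maps cohomology of degree `k` to degree
`k + 2 (c - dim V i)` -/
def Deg (T : Cycles.{u, v}) : Prop :=
  ∀ {i j : T.ι} {c : ℤ} {a : T.C}, a ∈ T.CH i j c →
    ∀ (k : Fin (2 * T.dim i + 1)) (l : Fin (2 * T.dim j + 1)),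
    ((l : ℕ) : ℤ) ≠ (k : ℕ) + 2 * (c - T.dim i) → T.π j l * T.R a * T.π i k = 0

/-- `e` satisfies the hard Lefschetz theorem on the cohomology of `V x` -/
def HardLef (T : Cycles.{u, v}) (x : T.ι) (e : T.C) : Prop :=
  ∀ k : Fin (T.dim x), ∃ g : T.H,
    g * (T.R e ^ (T.dim x - k) * T.π x (low T k)) = T.π x (low T k) ∧
      T.R e ^ (T.dim x - k) * T.π x (low T k) * g = T.π x (low T k).rev

/-- `p` is a decomposition for which `e` satisfies the hard Lefschetz theorem exactly -/
def ExactLef (T : Cycles.{u, v}) (x : T.ι) (e : T.C) (p : Fin (2 * T.dim x + 1) → T.C) : Prop :=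
  (∀ k l : Fin (2 * T.dim x + 1), (l : ℕ) ≠ k + 2 → p l * e * p k = 0) ∧
    ∀ k : Fin (T.dim x), ∃ g ∈ T.CH x x (k : ℕ),
      g * (e ^ (T.dim x - k) * p (low T k)) = p (low T k) ∧
        e ^ (T.dim x - k) * p (low T k) * g = p (low T k).rev

theorem mulG {a b : ℤ} {y z : T.C} (hy : y ∈ T.CH x x (T.dim x + a))
    (hz : z ∈ T.CH x x (T.dim x + b)) : y * z ∈ T.CH x x (T.dim x + (a + b)) := by
  have h := T.mul_mem hy hz
  rwa [show ((T.dim x : ℤ) + a + (T.dim x + b) - T.dim x) = T.dim x + (a + b) by ring] at h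

theorem mulG0 {a : ℤ} {y z : T.C} (hy : y ∈ T.CH x x (T.dim x))
    (hz : z ∈ T.CH x x a) : y * z ∈ T.CH x x a := by
  have h := T.mul_mem hy hz
  rwa [add_sub_cancel_left] at h

theorem mulG0' {a : ℤ} {y z : T.C} (hy : y ∈ T.CH x x a)
    (hz : z ∈ T.CH x x (T.dim x)) : y * z ∈ T.CH x x a := by
  have h := T.mul_mem hy hz
  rwa [add_sub_cancel_right] at h

theorem powG {e : T.C} {a : ℤ} (he : e ∈ T.CH x x (T.dim x + a)) (k : ℕ) :
    e ^ (k + 1) ∈ T.CH x x (T.dim x + (k + 1) * a) := by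
  induction k with
  | zero => simpa using he
  | succ k ih =>
    rw [pow_succ]
    have h := mulG ih he
    rwa [show (((k : ℕ) : ℤ) + 1) * a + a = (((k + 1 : ℕ) : ℤ) + 1) * a by push_cast; ring] at h

theorem e_nil {e : T.C} (he : e ∈ T.CH x x (T.dim x + 1)) : e ^ (T.dim x + 1) = 0 := by
  have h := powG he (T.dim x)
  refine T.CH_top ?_ h
  omega

theorem starΔ : star (T.Δ x) = T.Δ x := by
  have h1 : star (T.Δ x) ∈ T.CH x x (T.dim x) := T.star_mem (T.Δ_mem x)
  have h2 : T.Δ x * star (T.Δ x) = star (T.Δ x) := T.Δ_mul h1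
  have h3 := congrArg star h2
  rw [star_mul, star_star, h2] at h3
  exact h3

/-- commutator -/
def ad (y : T.C) : Module.End ℚ T.C := LinearMap.mulLeft ℚ y - LinearMap.mulRight ℚ y

theorem ad_apply (y z : T.C) : ad y z = y * z - z * y := rfl

theorem ad_nil {e : T.C} {n : ℕ} (he : e ^ n = 0) : ∃ N, (ad e) ^ N = 0 := by
  have h1 : IsNilpotent (LinearMap.mulLeft ℚ e) := ⟨n, by rw [LinearMap.pow_mulLeft, he]; ext; simp⟩
  have h2 : IsNilpotent (LinearMap.mulRight ℚ e) :=
    ⟨n, by rw [LinearMap.pow_mulRight, he]; ext; simp⟩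
  exact Commute.isNilpotent_sub (LinearMap.commute_mulLeft_right e e) h1 h2

/-- from the linear equation to an `sl2`-triple -/
theorem triple {e f : T.C} (he : e ∈ T.CH x x (T.dim x + 1)) (hs : star e = e)
    (hf : f ∈ T.CH x x (T.dim x - 1)) (heq : e * (e * f - f * e) - (e * f - f * e) * e = e) :
    ∃ h ∈ T.CH x x (T.dim x), ∃ f' ∈ T.CH x x (T.dim x - 1), star h = -h ∧
      h * e - e * h = (2 : ℚ) • e ∧ e * f' - f' * e = h ∧ h * f' - f' * h = -((2 : ℚ) • f') := by
  set f₁ : T.C := -(f + star f) with hf₁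
  have hf₁m : f₁ ∈ T.CH x x (T.dim x - 1) :=
    Submodule.neg_mem _ (Submodule.add_mem _ hf (T.star_mem hf))
  have hf₁s : star f₁ = f₁ := by rw [hf₁, star_neg, star_add, star_star, add_comm]
  have heq' : e * (e * star f - star f * e) - (e * star f - star f * e) * e = e := by
    have h := congrArg star heq
    simp only [star_sub, star_mul, hs] at h
    refine Eq.trans ?_ h
    noncomm_ring
  set h : T.C := e * f₁ - f₁ * e with hh
  have hmem : h ∈ T.CH x x (T.dim x) := by
    have h1 := mulG (a := 1) (b := -1) he (by rwa [← sub_eq_add_neg])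
    have h2 := mulG (a := -1) (b := 1) (y := f₁) (by rwa [← sub_eq_add_neg]) he
    rw [show (1 : ℤ) + -1 = 0 by norm_num, add_zero] at h1
    rw [show (-1 : ℤ) + 1 = 0 by norm_num, add_zero] at h2
    exact Submodule.sub_mem _ h1 h2
  have hhs : star h = -h := by
    rw [hh, star_sub, star_mul, star_mul, hs, hf₁s, neg_sub]
  have hhe : h * e - e * h = (2 : ℚ) • e := by
    have h3 : h * e - e * h = (e * (e * f - f * e) - (e * f - f * e) * e) +
        (e * (e * star f - star f * e) - (e * star f - star f * e) * e) := by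
      rw [hh, hf₁]
      noncomm_ring
    rw [h3, heq, heq', two_smul]
  obtain ⟨N, hN⟩ := ad_nil (e_nil he)
  have h1 : ad h * ad e - ad e * ad h = (2 : ℚ) • ad e := by
    ext z
    simp only [LinearMap.sub_apply, Module.End.mul_apply, LinearMap.smul_apply, ad_apply]
    have h4 : h * (e * z - z * e) - (e * z - z * e) * h - (e * (h * z - z * h) -
        (h * z - z * h) * e) = (h * e - e * h) * z - z * (h * e - e * h) := by noncomm_ring
    rw [h4, hhe, smul_mul_assoc, mul_smul_comm, smul_sub]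
  have h2 : ad e * ad f₁ - ad f₁ * ad e = ad h := by
    ext z
    simp only [LinearMap.sub_apply, Module.End.mul_apply, ad_apply]
    rw [hh]
    noncomm_ring
  obtain ⟨f', h5, h6, h7⟩ := LC32.morozov h1 h2 hN (x := f₁) (h := h) rfl
    (by rw [ad_apply, sub_self]) (S := T.CH x x (T.dim x - 1)) hf₁m
    (fun y hy => by
      rw [ad_apply]
      exact Submodule.sub_mem _ (mulG0 hmem hy) (mulG0' hy hmem))
  exact ⟨h, hmem, f', h7, hhs, hhe, h5, h6⟩

end Cycles

end SDCK
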