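import Pool.Agent.LibLC32.Fwd

/-!
# The spectral projectors
-/

open Polynomial

namespace SDCK

namespace Cycles

universe u v

variable {T : Cycles.{u, v}} {x : T.ι}

/-- an antisymmetric `sl2`-triple with nilpotent `e` -/
structure Trip (T : Cycles.{u, v}) (x : T.ι) (e h f : T.C) : Prop where
  em : e ∈ T.CH x x (T.dim x + 1)
  hm : h ∈ T.CH x x (T.dim x)
  fm : f ∈ T.CH x x (T.dim x - 1)
  es : star e = e
  hs : star h = -h
  he : h * e - e * h = (2 : ℚ) • e
  ef : e * f - f * e = h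
  hf : h * f - f * h = -((2 : ℚ) • f)

/-- left multiplication -/
abbrev L (y : T.C) : Module.End ℚ T.C := LinearMap.mulLeft ℚ y

theorem L_mul (y z : T.C) : L y * L z = L (y * z) := by
  ext w
  simp

theorem star_int (i : ℤ) (z : T.C) : star ((i : ℚ) • z) = (i : ℚ) • star z := by
  rw [Int.cast_smul_eq_zsmul, Int.cast_smul_eq_zsmul]
  exact map_zsmul (starAddEquiv (R := T.C)) i z

theorem L_pow (y : T.C) (k : ℕ) : (L y) ^ k = L (y ^ k) := LinearMap.pow_mulLeft ℚ T.C y k

namespace Trip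

variable {e h f : T.C} (t : Trip T x e h f)

include t

theorem l1 : L h * L e - L e * L h = (2 : ℚ) • L e := by
  ext w
  have h1 := congrArg (fun z => z * w) t.he
  simp only [sub_mul, smul_mul_assoc] at h1
  simpa [mul_assoc] using h1

theorem l2 : L e * L f - L f * L e = L h := by
  ext w
  have h1 := congrArg (fun z => z * w) t.ef
  simp only [sub_mul] at h1
  simpa [mul_assoc] using h1

theorem l3 : L h * L f - L f * L h = -((2 : ℚ) • L f) := by
  ext w
  have h1 := congrArg (fun z => z * w) t.hf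
  simp only [sub_mul, smul_mul_assoc, neg_mul] at h1
  simpa [mul_assoc] using h1

theorem en : (L e) ^ (T.dim x + 1) = 0 := by
  rw [L_pow, e_nil t.em]
  ext w
  simp

omit t in
/-- the Lagrange polynomials of the nodes `-d, …, d` -/
noncomputable def lp (T : Cycles.{u, v}) (x : T.ι) (i : ℤ) : ℚ[X] :=
  if i ∈ Finset.Icc (-(T.dim x : ℤ)) (T.dim x) then
    Lagrange.basis (Finset.Icc (-(T.dim x : ℤ)) (T.dim x)) (fun j : ℤ => (j : ℚ)) i else 0

omit t in
theorem lp_eval {i j : ℤ} (hj : j ∈ Finset.Icc (-(T.dim x : ℤ)) (T.dim x)) :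
    (lp T x i).eval (j : ℚ) = if i = j then 1 else 0 := by
  by_cases hi : i ∈ Finset.Icc (-(T.dim x : ℤ)) (T.dim x)
  · rw [lp, if_pos hi]
    have hnodes : Set.InjOn (fun i : ℤ => (i : ℚ)) (Finset.Icc (-(T.dim x : ℤ)) (T.dim x)) :=
      fun a _ b _ hab => Int.cast_injective hab
    by_cases hij : i = j
    · subst hij
      rw [if_pos rfl]
      exact Lagrange.eval_basis_self hnodes hi
    · rw [if_neg hij]
      exact Lagrange.eval_basis_of_ne hij hj
  · rw [lp, if_neg hi, eval_zero, if_neg]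
    rintro rfl
    exact hi hj

omit t in
/-- the spectral projectors -/
noncomputable def q (T : Cycles.{u, v}) (x : T.ι) (h : T.C) (i : ℤ) : T.C :=
  aeval (L h) (lp T x i) (T.Δ x)

omit t in
theorem q_out {i : ℤ} (hi : i ∉ Finset.Icc (-(T.dim x : ℤ)) (T.dim x)) : q T x h i = 0 := by
  rw [q, lp, if_neg hi, map_zero, LinearMap.zero_apply]

theorem q_mem (i : ℤ) : q T x h i ∈ T.CH x x (T.dim x) :=
  LC32.aeval_mem (S := T.CH x x (T.dim x)) (fun _ hy => mulG0 t.hm hy) _ (T.Δ_mem x)

theorem q_lag : T.Δ x = ∑ i ∈ Finset.Icc (-(T.dim x : ℤ)) (T.dim x), q T x h i ∧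
    ∀ i ∈ Finset.Icc (-(T.dim x : ℤ)) (T.dim x), h * q T x h i = (i : ℚ) • q T x h i := by
  have hnodes : Set.InjOn (fun i : ℤ => (i : ℚ)) (Finset.Icc (-(T.dim x : ℤ)) (T.dim x)) :=
    fun a _ b _ hab => Int.cast_injective hab
  have h1 := LC32.H_prod t.l1 t.l2 t.l3 t.en (T.Δ x)
  obtain ⟨h2, h3⟩ := LC32.lagr hnodes h1
  have h4 : ∀ i ∈ Finset.Icc (-(T.dim x : ℤ)) (T.dim x), q T x h i =
      aeval (L h) (Lagrange.basis (Finset.Icc (-(T.dim x : ℤ)) (T.dim x))
        (fun j : ℤ => (j : ℚ)) i) (T.Δ x) := by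
    intro i hi
    rw [q, lp, if_pos hi]
  constructor
  · rw [Finset.sum_congr rfl h4]
    exact h2
  · intro i hi
    rw [h4 i hi]
    exact h3 i hi

theorem hq (i : ℤ) : h * q T x h i = (i : ℚ) • q T x h i := by
  by_cases hi : i ∈ Finset.Icc (-(T.dim x : ℤ)) (T.dim x)
  · exact t.q_lag.2 i hi
  · rw [q_out hi, mul_zero, smul_zero]

theorem q_sum : ∑ i ∈ Finset.Icc (-(T.dim x : ℤ)) (T.dim x), q T x h i = T.Δ x := t.q_lag.1.symm

theorem qh (i : ℤ) : q T x h i * h = (i : ℚ) • q T x h i := by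
  have h1 : q T x h i * h = h * q T x h i := by
    have h2 : q T x h i ∈ (LinearMap.ker (LinearMap.mulRight ℚ h - LinearMap.mulLeft ℚ h) :
        Submodule ℚ T.C) := by
      refine LC32.aeval_mem (fun _ hy => ?_) _ ?_
      · rw [LinearMap.mem_ker, LinearMap.sub_apply, LinearMap.mulRight_apply,
          LinearMap.mulLeft_apply, sub_eq_zero] at hy ⊢
        rw [LinearMap.mulLeft_apply, mul_assoc, hy]
      · rw [LinearMap.mem_ker, LinearMap.sub_apply, LinearMap.mulRight_apply,
          LinearMap.mulLeft_apply, sub_eq_zero, T.Δ_mul t.hm, T.mul_Δ t.hm]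
    rw [LinearMap.mem_ker, LinearMap.sub_apply, LinearMap.mulRight_apply,
      LinearMap.mulLeft_apply, sub_eq_zero] at h2
    exact h2
  rw [h1, t.hq]

omit t in
/-- `q i * v = L_i(μ) v` for an eigenvector `v` -/
theorem q_eig {μ : ℚ} {v : T.C} (hv : h * v = μ • v) (hΔ : T.Δ x * v = v) (i : ℤ) :
    q T x h i * v = (lp T x i).eval μ • v := by
  have h1 : ∀ p : ℚ[X], ∀ y : T.C, (aeval (L h) p y) * v = aeval (L h) p (y * v) := by
    intro p
    have hpow : ∀ (k : ℕ) (y : T.C), ((L h) ^ k) y * v = ((L h) ^ k) (y * v) := by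
      intro k y
      rw [L_pow, LinearMap.mulLeft_apply, LinearMap.mulLeft_apply, mul_assoc]
    induction p using Polynomial.induction_on' with
    | add p q hp hq =>
      intro y
      rw [map_add, LinearMap.add_apply, LinearMap.add_apply, add_mul, hp, hq]
    | monomial k a =>
      intro y
      rw [aeval_monomial, Module.End.mul_apply, Module.End.mul_apply,
        Module.algebraMap_end_apply, Module.algebraMap_end_apply, smul_mul_assoc, hpow]
  rw [q, h1, hΔ]
  exact LC32.aeval_eig hv _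

theorem Δq (i : ℤ) : T.Δ x * q T x h i = q T x h i := T.Δ_mul (t.q_mem i)

theorem qΔ (i : ℤ) : q T x h i * T.Δ x = q T x h i := T.mul_Δ (t.q_mem i)

theorem qq (i j : ℤ) : q T x h i * q T x h j = if i = j then q T x h j else 0 := by
  by_cases hj : j ∈ Finset.Icc (-(T.dim x : ℤ)) (T.dim x)
  · rw [q_eig (t.hq j) (t.Δq j), lp_eval hj]
    split_ifs <;> simp
  · rw [q_out hj, mul_zero]
    split_ifs <;> rfl

theorem star_q (i : ℤ) : star (q T x h i) = q T x h (-i) := by
  have key : ∀ i : ℤ, star (q T x h i) = q T x h (-i) * star (q T x h i) := by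
    intro i
    by_cases hi : i ∈ Finset.Icc (-(T.dim x : ℤ)) (T.dim x)
    · have h1 : h * star (q T x h i) = ((-i : ℤ) : ℚ) • star (q T x h i) := by
        have h2 := congrArg star (t.qh i)
        rw [star_mul, t.hs] at h2
        rw [star_int, neg_mul, neg_eq_iff_eq_neg] at h2
        rw [h2]
        push_cast
        rw [neg_smul]
      have h4 : T.Δ x * star (q T x h i) = star (q T x h i) := by
        rw [← starΔ, ← star_mul, t.qΔ]
      rw [q_eig h1 h4, lp_eval (by rw [Finset.mem_Icc] at hi ⊢; omega), if_pos rfl, one_smul]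
    · rw [q_out hi, star_zero, mul_zero]
  have h1 := key i
  have h2 := congrArg star (key (-i))
  rw [star_star, star_mul, star_star, neg_neg] at h2
  rw [h1, ← h2]

/-! ### the weights of `e` -/

theorem he_pow (m : ℕ) : h * e ^ m = e ^ m * h + (2 * m : ℚ) • e ^ m := by
  induction m with
  | zero => simp
  | succ m ih =>
    have h2 : h * e = e * h + (2 : ℚ) • e := by rw [← t.he]; abel
    rw [pow_succ, ← mul_assoc, ih, add_mul, mul_assoc, h2, mul_add, mul_smul_comm,
      smul_mul_assoc, ← pow_succ, ← mul_assoc, ← pow_succ]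
    push_cast
    module

theorem qeq {i j : ℤ} (m : ℕ) (hij : j ≠ i + 2 * m) :
    q T x h j * e ^ m * q T x h i = 0 := by
  have h1 : (j : ℚ) • (q T x h j * e ^ m * q T x h i) =
      ((i : ℚ) + 2 * m) • (q T x h j * e ^ m * q T x h i) := by
    have h2 : q T x h j * (h * e ^ m) * q T x h i =
        q T x h j * (e ^ m * h + (2 * m : ℚ) • e ^ m) * q T x h i := by rw [t.he_pow]
    rw [← mul_assoc, t.qh, mul_add, add_mul, smul_mul_assoc, smul_mul_assoc, mul_smul_comm,
      smul_mul_assoc, ← mul_assoc, mul_assoc _ h, t.hq, mul_smul_comm] at h2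
    rw [h2, ← add_smul]
  rw [← sub_eq_zero, ← sub_smul] at h1
  refine (smul_eq_zero.1 h1).resolve_left ?_
  intro h3
  apply hij
  have h4 : (j : ℚ) = ((i + 2 * m : ℤ) : ℚ) := by
    push_cast
    linarith
  exact_mod_cast h4

theorem Δe : T.Δ x * e = e := T.Δ_mul t.em

theorem eΔ : e * T.Δ x = e := T.mul_Δ t.em

theorem eq_left (i : ℤ) (m : ℕ) : e ^ m * q T x h i = q T x h (i + 2 * m) * e ^ m * q T x h i := by
  have h1 : e ^ m * q T x h i = T.Δ x * (e ^ m * q T x h i) := by
    rcases m with _ | m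
    · rw [pow_zero, one_mul, t.Δq]
    · rw [pow_succ', mul_assoc, ← mul_assoc (T.Δ x), t.Δe]
  rw [h1, ← t.q_sum, Finset.sum_mul]
  by_cases hi : i + 2 * m ∈ Finset.Icc (-(T.dim x : ℤ)) (T.dim x)
  · rw [Finset.sum_eq_single_of_mem _ hi]
    · rw [mul_assoc]
    · intro j _ hj
      rw [← mul_assoc, t.qeq m hj]
  · rw [q_out hi, zero_mul, zero_mul]
    refine Finset.sum_eq_zero fun j hj => ?_
    rw [← mul_assoc, t.qeq m]
    rintro rfl
    exact hi hj

theorem qe_right (j : ℤ) (m : ℕ) :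
    q T x h j * e ^ m = q T x h j * e ^ m * q T x h (j - 2 * m) := by
  have h1 : q T x h j * e ^ m = q T x h j * e ^ m * T.Δ x := by
    rcases m with _ | m
    · rw [pow_zero, mul_one, t.qΔ]
    · rw [pow_succ, mul_assoc, mul_assoc, t.eΔ]
  refine h1.trans ?_
  rw [← t.q_sum, Finset.mul_sum]
  by_cases hi : j - 2 * m ∈ Finset.Icc (-(T.dim x : ℤ)) (T.dim x)
  · rw [Finset.sum_eq_single_of_mem _ hi]
    · intro i _ hi'
      rw [t.qeq m]
      intro h2
      apply hi'
      rw [h2]
      ring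
  · rw [q_out hi, mul_zero]
    refine Finset.sum_eq_zero fun i hi' => ?_
    rw [t.qeq m]
    rintro rfl
    apply hi
    rwa [add_sub_cancel_right]

/-- exact inverses -/
theorem exists_inv (m : ℕ) : ∃ g ∈ T.CH x x (T.dim x - m),
    g * (e ^ m * q T x h (-m)) = q T x h (-m) ∧ e ^ m * q T x h (-m) * g = q T x h m := by
  obtain ⟨Q, hQ⟩ := LC32.lef_surj t.l1 t.l2 t.l3 t.en (k := m) (v := q T x h m)
    (by simpa using t.hq m)
  set w : T.C := ((L f) ^ m) (aeval ((L e) ^ m * (L f) ^ m) Q (q T x h m)) with hw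
  have hfm : ∀ {c : ℤ} (k : ℕ) {y : T.C}, y ∈ T.CH x x (T.dim x + c) →
      f ^ k * y ∈ T.CH x x (T.dim x + (c - k)) := by
    intro c k
    induction k with
    | zero =>
      intro y hy
      simpa using hy
    | succ k ih =>
      intro y hy
      rw [pow_succ', mul_assoc]
      have h1 := mulG (a := -1) (b := c - k) (y := f) (by rw [← sub_eq_add_neg]; exact t.fm) (ih hy)
      rwa [show (-1 : ℤ) + (c - k) = c - ((k + 1 : ℕ) : ℤ) by push_cast; ring] at h1
  have hem : ∀ {c : ℤ} (k : ℕ) {y : T.C}, y ∈ T.CH x x (T.dim x + c) →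
      e ^ k * y ∈ T.CH x x (T.dim x + (c + k)) := by
    intro c k
    induction k with
    | zero =>
      intro y hy
      simpa using hy
    | succ k ih =>
      intro y hy
      rw [pow_succ', mul_assoc]
      have h1 := mulG (a := 1) (b := c + k) (y := e) t.em (ih hy)
      rwa [show (1 : ℤ) + (c + k) = c + ((k + 1 : ℕ) : ℤ) by push_cast; ring] at h1
  have hwm : w ∈ T.CH x x (T.dim x - m) := by
    have h1 : aeval ((L e) ^ m * (L f) ^ m) Q (q T x h m) ∈ T.CH x x (T.dim x) := by
      refine LC32.aeval_mem (fun y hy => ?_) _ (t.q_mem m)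
      rw [L_pow, L_pow, L_mul, LinearMap.mulLeft_apply, mul_assoc]
      have h2 := hem m (hfm (c := 0) m (y := y) (by rwa [add_zero]))
      rwa [zero_sub, neg_add_cancel, add_zero] at h2
    have h2 := hfm (c := 0) m (y := aeval ((L e) ^ m * (L f) ^ m) Q (q T x h m))
      (by rwa [add_zero])
    rw [zero_sub, ← sub_eq_add_neg] at h2
    have h3 : w = f ^ m * aeval ((L e) ^ m * (L f) ^ m) Q (q T x h m) := by
      rw [hw]
      exact congrArg (fun φ : Module.End ℚ T.C => φ (aeval ((L e) ^ m * (L f) ^ m) Q (q T x h m)))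
        (L_pow f m)
    rw [h3]
    exact h2
  have hew : e ^ m * w = q T x h m := by
    rw [hQ]
    exact (congrArg (fun φ : Module.End ℚ T.C => φ w) (L_pow e m)).symm
  refine ⟨q T x h (-m) * w * q T x h m, mulG0' (mulG0 (t.q_mem _) hwm) (t.q_mem _), ?_⟩
  have h1 : e ^ m * q T x h (-m) = q T x h m * e ^ m := by
    rw [t.eq_left (-m) m, t.qe_right m m, show (-(m : ℤ) + 2 * m) = m by ring,
      show ((m : ℤ) - 2 * m) = -m by ring]
  have h2 : e ^ m * q T x h (-m) * (q T x h (-m) * w * q T x h m) = q T x h m := by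
    have h3 : e ^ m * q T x h (-m) * (q T x h (-m) * w * q T x h m) =
        e ^ m * (q T x h (-m) * q T x h (-m)) * w * q T x h m := by
      simp only [mul_assoc]
    rw [h3, t.qq, if_pos rfl, h1, mul_assoc (q T x h m), hew, t.qq, if_pos rfl, t.qq, if_pos rfl]
  refine ⟨?_, h2⟩
  rw [← sub_eq_zero]
  refine LC32.lef_inj t.l1 t.l2 t.en (k := m) ?_ ?_
  · rw [LinearMap.mulLeft_apply, mul_sub]
    have h4 : h * (q T x h (-m) * w * q T x h m * (e ^ m * q T x h (-m))) =
        (h * q T x h (-m)) * w * q T x h m * (e ^ m * q T x h (-m)) := by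
      simp only [mul_assoc]
    rw [h4, t.hq]
    simp only [smul_mul_assoc]
    push_cast
    module
  · rw [L_pow, LinearMap.mulLeft_apply, mul_sub]
    have h3 : e ^ m * (q T x h (-m) * w * q T x h m * (e ^ m * q T x h (-m))) =
        e ^ m * q T x h (-m) * w * q T x h m * (e ^ m * q T x h (-m)) := by
      simp only [mul_assoc]
    rw [h3, h1, mul_assoc (q T x h m), hew, t.qq, if_pos rfl, t.qq, if_pos rfl, ← mul_assoc, t.qq,
      if_pos rfl, sub_self]

end Trip

end Cycles

end SDCK
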